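import Pool.Agent.Helper947.Geo.B1
import Pool.Agent.Helper947.Geo.Core3

/-!
# Polynomials of degree at most two vanishing at three points of a line
-/

set_option autoImplicit false
open MvPolynomial
open Pool.Agent.Helper947.Geo

namespace Pool.Agent.Y206.E

/-- a polynomial of degree at most two that vanishes on three lines through the origin of a plane
vanishes on the plane -/
theorem line_vanish {d : ℕ} (x y : Fin d → ℂ) (α β lam : ℂ) (hα : α ≠ 0) (hβ : β ≠ 0)
    (hl : lam ≠ 0) (hl2 : lam * α ≠ β) (f : MvPolynomial (Fin d) ℂ) (hf : f.totalDegree ≤ 2)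
    (hx : ∀ t : ℂ, eval (t • x) f = 0) (hy : ∀ t : ℂ, eval (t • y) f = 0)
    (hz : ∀ t : ℂ, eval (t • (α • x + β • y)) f = 0) (t : ℂ) :
    eval (x + t • (x + lam • y)) f = 0 := by
  have hdeg : (cur x (x + lam • y) f).natDegree ≤ 2 := by
    have h1 := MvPolynomial.aeval_natDegree_le (n := 1) f hf
      (fun i => Polynomial.C (x i) + Polynomial.C ((x + lam • y) i) * Polynomial.X) (by
        intro i
        exact Polynomial.natDegree_add_le_of_degree_le (by simp)
          ((Polynomial.natDegree_C_mul_le _ _).trans Polynomial.natDegree_X_le))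
    simpa [cur] using h1
  have hne : lam * α - β ≠ 0 := sub_ne_zero.2 hl2
  have h0 : (cur x (x + lam • y) f).eval 0 = 0 := by
    rw [eval_cur]
    simpa using hx 1
  have h1 : (cur x (x + lam • y) f).eval (-1) = 0 := by
    rw [eval_cur]
    have h2 : x + (-1 : ℂ) • (x + lam • y) = (-lam) • y := by
      module
    rw [h2]
    exact hy _
  have h2 : (cur x (x + lam • y) f).eval (β / (lam * α - β)) = 0 := by
    rw [eval_cur]
    have h3 : x + (β / (lam * α - β)) • (x + lam • y) =
        (lam / (lam * α - β)) • (α • x + β • y) := by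
      funext i
      simp only [Pi.add_apply, Pi.smul_apply, smul_eq_mul]
      field_simp
      ring
    rw [h3]
    exact hz _
  have h3 : β / (lam * α - β) ≠ 0 := div_ne_zero hβ hne
  have h4 : β / (lam * α - β) ≠ -1 := by
    intro h
    rw [div_eq_iff hne] at h
    have h5 : lam * α = 0 := by linear_combination h
    exact mul_ne_zero hl hα h5
  have hzero : cur x (x + lam • y) f = 0 := by
    by_contra hne0
    have h5 : ({0, -1, β / (lam * α - β)} : Finset ℂ).card ≤
        (cur x (x + lam • y) f).natDegree := by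
      refine Polynomial.card_le_degree_of_subset_roots ?_
      intro r hr
      rw [Finset.mem_val] at hr
      rw [Polynomial.mem_roots hne0]
      simp only [Finset.mem_insert, Finset.mem_singleton] at hr
      rcases hr with rfl | rfl | rfl
      · exact h0
      · exact h1
      · exact h2
    have h6 : ({0, -1, β / (lam * α - β)} : Finset ℂ).card = 3 := by
      rw [Finset.card_eq_three]
      exact ⟨0, -1, _, by norm_num, h3.symm, h4.symm, rfl⟩
    omega
  rw [← eval_cur, hzero, Polynomial.eval_zero]

/-- a finite set with three collinear points is not cut out by polynomials of degree at most two -/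
theorem no_quadrics {d : ℕ} {K : Type} [Finite K] (w : K → Fin d → ℂ)
    (hw : ∀ k l, k ≠ l → LinearIndependent ℂ ![w k, w l]) (i j k : K)
    (hij : i ≠ j) (hik : i ≠ k) (hjk : j ≠ k) (hdep : ¬ LinearIndependent ℂ ![w i, w j, w k])
    (S : Set (MvPolynomial (Fin d) ℂ)) (hS : ∀ f ∈ S, f.totalDegree ≤ 2)
    (hI : ∀ v : Fin d → ℂ, (∀ f ∈ S, eval v f = 0) ↔ ∃ l, ∃ t : ℂ, v = t • w l) : False := by
  classical
  have hk : w k ∈ Submodule.span ℂ {w i, w j} := by
    by_contra hcon
    apply hdep
    have h1 : LinearIndependent ℂ (Fin.snoc ![w i, w j] (w k) : Fin 3 → Fin d → ℂ) := by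
      refine linearIndependent_finSnoc.mpr ⟨hw i j hij, ?_⟩
      simpa [Matrix.range_cons, Matrix.range_empty, Set.pair_comm] using hcon
    convert h1 using 1
    funext i
    fin_cases i <;> rfl
  obtain ⟨α, β, hαβ⟩ := Submodule.mem_span_pair.1 hk
  have hα : α ≠ 0 := by
    rintro rfl
    rw [zero_smul, zero_add] at hαβ
    have h1 := LinearIndependent.pair_iff.1 (hw j k hjk) β (-1) (by rw [hαβ]; module)
    exact absurd h1.2 (by norm_num)
  have hβ : β ≠ 0 := by
    rintro rfl
    rw [zero_smul, add_zero] at hαβ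
    have h1 := LinearIndependent.pair_iff.1 (hw i k hik) α (-1) (by rw [hαβ]; module)
    exact absurd h1.2 (by norm_num)
  obtain ⟨lam, hl⟩ : ∃ lam : ℂ, lam ∉ ({0, β / α} : Finset ℂ) :=
    Infinite.exists_notMem_finset _
  simp only [Finset.mem_insert, Finset.mem_singleton, not_or] at hl
  have hl2 : lam * α ≠ β := by
    intro h
    apply hl.2
    rw [eq_div_iff hα]
    exact h
  have hvan : ∀ f ∈ S, ∀ t : ℂ, eval (w i + t • (w i + lam • w j)) f = 0 := by
    intro g hg t
    have hg' : ∀ l, ∀ t : ℂ, eval (t • w l) g = 0 := fun l t => (hI _).2 ⟨l, t, rfl⟩ g hg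
    exact line_vanish (w i) (w j) α β lam hα hβ hl.1 hl2 g (hS g hg) (hg' i) (hg' j)
      (by rw [hαβ]; exact hg' k) t
  have hl' : ∀ t : ℂ, ∃ l, w i + t • (w i + lam • w j) ∈ Submodule.span ℂ {w l} := by
    intro t
    obtain ⟨l, s, h⟩ := (hI _).1 fun f hf => hvan f hf t
    exact ⟨l, h ▸ Submodule.smul_mem _ s (Submodule.mem_span_singleton_self _)⟩
  choose l hl' using hl'
  obtain ⟨t, t', htt, hll⟩ := Finite.exists_ne_map_eq_of_infinite l
  have h1 := hl' t
  have h2 := hl' t'
  rw [← hll] at h2
  have h3 : w i + lam • w j ∈ Submodule.span ℂ {w (l t)} := by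
    have h4 := Submodule.smul_mem _ (t - t')⁻¹ (Submodule.sub_mem _ h1 h2)
    have h5 : (t - t')⁻¹ • (w i + t • (w i + lam • w j) - (w i + t' • (w i + lam • w j))) =
        w i + lam • w j := by
      have h6 : w i + t • (w i + lam • w j) - (w i + t' • (w i + lam • w j)) =
          (t - t') • (w i + lam • w j) := by module
      rw [h6, smul_smul, inv_mul_cancel₀ (sub_ne_zero.2 htt), one_smul]
    rwa [h5] at h4
  have h4 : w i ∈ Submodule.span ℂ {w (l t)} := by
    have h5 := Submodule.sub_mem _ h1 (Submodule.smul_mem _ t h3)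
    have h6 : w i + t • (w i + lam • w j) - t • (w i + lam • w j) = w i := by module
    rwa [h6] at h5
  have h5 : w j ∈ Submodule.span ℂ {w (l t)} := by
    have h6 := Submodule.smul_mem _ lam⁻¹ (Submodule.sub_mem _ h3 h4)
    have h7 : lam⁻¹ • (w i + lam • w j - w i) = w j := by
      have h8 : w i + lam • w j - w i = lam • w j := by module
      rw [h8, smul_smul, inv_mul_cancel₀ hl.1, one_smul]
    rwa [h7] at h6
  obtain ⟨a, ha⟩ := Submodule.mem_span_singleton.1 h4
  obtain ⟨b, hb⟩ := Submodule.mem_span_singleton.1 h5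
  have h6 := LinearIndependent.pair_iff.1 (hw i j hij) b (-a) (by
    rw [← ha, ← hb, smul_smul, smul_smul]; module)
  have ha0 : a = 0 := neg_eq_zero.1 h6.2
  have h7 := (hw i j hij).ne_zero 0
  apply h7
  show w i = 0
  rw [← ha, ha0, zero_smul]

/-- generators of the ideal of a finite set cut out the set -/
theorem zero_locus {d : ℕ} {K : Type} [Fintype K] (w : K → Fin d → ℂ)
    (S : Set (MvPolynomial (Fin d) ℂ)) (hI : IsVan w (Ideal.span S)) (v : Fin d → ℂ) :
    (∀ f ∈ S, eval v f = 0) ↔ ∃ l, ∃ t : ℂ, v = t • w l := by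
  classical
  constructor
  · intro hv
    by_contra hcon
    push Not at hcon
    have hsp : ∀ l, v ∉ Submodule.span ℂ {w l} := by
      intro l hl
      obtain ⟨t, ht⟩ := Submodule.mem_span_singleton.1 hl
      exact hcon l t ht.symm
    choose θ hθ1 hθ2 using fun l => card_rel_sep (Submodule.span ℂ {w l}) v (hsp l)
    have hmem : (∏ l, lf (θ l)) ∈ Ideal.span S := by
      rw [hI]
      intro l s
      rw [map_prod]
      refine Finset.prod_eq_zero (Finset.mem_univ l) ?_
      rw [eval_lf, dotProduct_comm]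
      exact hθ1 l _ (Submodule.smul_mem _ s (Submodule.mem_span_singleton_self _))
    have h0 : eval v (∏ l, lf (θ l)) = 0 := by
      have h1 : Ideal.span S ≤ RingHom.ker (eval v) := Ideal.span_le.2 fun f hf => hv f hf
      exact h1 hmem
    rw [map_prod, Finset.prod_eq_zero_iff] at h0
    obtain ⟨l, -, hl0⟩ := h0
    rw [eval_lf, dotProduct_comm] at hl0
    exact hθ2 l hl0
  · rintro ⟨l, t, rfl⟩ f hf
    exact (hI f).1 (Ideal.subset_span hf) l t

end Pool.Agent.Y206.E
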